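import Pool.Agent.Results.MP_ea2cf4_gt.ClosedHaarNullNotCovered

/-!
# The sigma-ideal generated by the Borel null-finite sets differs from `HN ∩ HM`

The group is `X = ∏_{n ≥ 2} ℤ/n` and the set is `F = ∏_{n ≥ 2} (ℤ/n \ {0})`.
-/

namespace Pool.Agent.Results.MP_def4bf_gt.NullFiniteIdealDiffers

open Set Filter Topology MeasureTheory

/-- `A ⊆ X` is null-finite: for some sequence `s k → 0`, for each `x` only finitely many `k`
satisfy `x + s k ∈ A`. -/
def NullFinite {X : Type} [AddCommGroup X] [TopologicalSpace X] (A : Set X) : Prop :=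
  ∃ s : ℕ → X, Tendsto s atTop (𝓝 0) ∧ ∀ x : X, {k | x + s k ∈ A}.Finite

/-- A set `B` is Borel in `X`. -/
def IsBorel {X : Type} [TopologicalSpace X] (B : Set X) : Prop :=
  @MeasurableSet X (borel X) B

/-- A Borel set `B` is Haar-null (Christensen): for some Borel probability measure `μ`, all
translates of `B` have measure zero. -/
def HaarNull {X : Type} [AddCommGroup X] [TopologicalSpace X] (B : Set X) : Prop :=
  IsBorel B ∧ ∃ μ : @Measure X (borel X), @IsProbabilityMeasure X (borel X) μ ∧
    ∀ x : X, μ ((fun y => y + x) '' B) = 0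

/-- A Borel set `B` is Haar-meager (Darji): there are a nonempty compact metrizable space `K` and a
continuous map `f : K → X` such that the preimages of all translates of `B` are meager in `K`. -/
def HaarMeager {X : Type} [AddCommGroup X] [TopologicalSpace X] (B : Set X) : Prop :=
  IsBorel B ∧ ∃ (K : Type) (_ : TopologicalSpace K) (_ : CompactSpace K)
    (_ : TopologicalSpace.MetrizableSpace K) (_ : Nonempty K) (f : K → X), Continuous f ∧
      ∀ x : X, IsMeagre (f ⁻¹' ((fun y => y + x) '' B))

/-- The family of subsets of Borel Haar-null sets. -/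
def HN (X : Type) [AddCommGroup X] [TopologicalSpace X] : Set (Set X) :=
  {A | ∃ B, HaarNull B ∧ A ⊆ B}

/-- The family of subsets of Borel Haar-meager sets. -/
def HM (X : Type) [AddCommGroup X] [TopologicalSpace X] : Set (Set X) :=
  {A | ∃ B, HaarMeager B ∧ A ⊆ B}

/-- The family of sets covered by countably many Borel null-finite sets. -/
def SigmaNF (X : Type) [AddCommGroup X] [TopologicalSpace X] : Set (Set X) :=
  {A | ∃ B : ℕ → Set X, (∀ k, IsBorel (B k) ∧ NullFinite (B k)) ∧ A ⊆ ⋃ k, B k}

open Pool.Agent.Results.MP_ea2cf4_gt.ClosedHaarNullNotCovered in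
lemma haarMeager_F : HaarMeager F := by
  refine ⟨haarNull_F.1, X, inferInstance, inferInstance, inferInstance, ⟨0⟩, id, continuous_id,
    fun x => ?_⟩
  rw [preimage_id]
  have hcl : IsClosed ((fun y : X => y + x) '' F) :=
    (Homeomorph.addRight x).isClosedMap _ isClosed_F
  have hint : interior ((fun y : X => y + x) '' F) = ∅ := by
    rw [eq_empty_iff_forall_notMem]
    intro y hy
    obtain ⟨V, hV, hVo, hyV⟩ := mem_interior.1 hy
    -- the points which agree with `y` up to `n` and with `x` beyond `n` converge to `y`
    have hlim : Tendsto (fun n : ℕ => (fun k => if k < n then y k else x k : X)) atTop (𝓝 y) := by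
      rw [tendsto_pi_nhds]
      intro k
      refine tendsto_const_nhds.congr' ?_
      filter_upwards [eventually_gt_atTop k] with n hn
      simp [hn]
    obtain ⟨n, hn⟩ := (hlim.eventually (hVo.mem_nhds hyV)).exists
    obtain ⟨z, hz, hzy⟩ := hV hn
    apply hz n
    have h1 := congrFun hzy n
    have h2 : z n + x n = x n := by simpa using h1
    exact add_eq_right.1 h2
  exact (hcl.isNowhereDense_iff.2 hint).isMeagre

/-- **Negative answer to Q1.** It is not true that for every abelian Polish group `X` the
sigma-ideal generated by the Borel null-finite sets consists of all sets which are contained both in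
a Borel Haar-null set and in a Borel Haar-meager set. There is a compact metrizable abelian group
with a closed set which is Haar-null and Haar-meager and which is not covered by countably many
Borel null-finite sets. -/
theorem result :
    (¬ ∀ (X : Type) [AddCommGroup X] [TopologicalSpace X] [IsTopologicalAddGroup X]
      [PolishSpace X], SigmaNF X = HN X ∩ HM X) ∧
    ∃ (X : Type) (_ : AddCommGroup X) (_ : TopologicalSpace X)
      (_ : IsTopologicalAddGroup X) (_ : PolishSpace X) (_ : CompactSpace X) (F : Set X),
      IsClosed F ∧ HaarNull F ∧ HaarMeager F ∧ F ∉ SigmaNF X := by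
  have main : ∃ (X : Type) (_ : AddCommGroup X) (_ : TopologicalSpace X)
      (_ : IsTopologicalAddGroup X) (_ : PolishSpace X) (_ : CompactSpace X) (F : Set X),
      IsClosed F ∧ HaarNull F ∧ HaarMeager F ∧ F ∉ SigmaNF X :=
    ⟨Pool.Agent.Results.MP_ea2cf4_gt.ClosedHaarNullNotCovered.X, inferInstance, inferInstance,
      inferInstance, inferInstance, inferInstance,
      Pool.Agent.Results.MP_ea2cf4_gt.ClosedHaarNullNotCovered.F,
      Pool.Agent.Results.MP_ea2cf4_gt.ClosedHaarNullNotCovered.isClosed_F,
      Pool.Agent.Results.MP_ea2cf4_gt.ClosedHaarNullNotCovered.haarNull_F, haarMeager_F,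
      Pool.Agent.Results.MP_ea2cf4_gt.ClosedHaarNullNotCovered.not_covered⟩
  refine ⟨fun h => ?_, main⟩
  obtain ⟨X, _, _, _, _, _, F, -, hN, hM, hF⟩ := main
  refine hF ?_
  rw [h X]
  exact ⟨⟨F, hN, Subset.rfl⟩, F, hM, Subset.rfl⟩

end Pool.Agent.Results.MP_def4bf_gt.NullFiniteIdealDiffers
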